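import Pool.Agent.N936.TC.Stm

set_option autoImplicit false

/-! # Project TC (helper936), leaf MODEL (helper459): the suspension as a compact Hausdorff space -/

namespace Pool.Agent.N459.TC

open Set Topology Pool.Agent.N936.TC

theorem t_MODEL : S_MODEL := by
  intro σ
  let CF : Type := {f : Q × Bool × I → ℝ // Continuous f ∧ (∀ q i j, f (q, i, 0) = f (q, j, 0)) ∧
    (∀ q i j, f (q, i, 1) = f (σ i q, j, 0))}
  let F : Q × Bool × I → (CF → ℝ) := fun p f => f.1 p
  have hF : Continuous F := continuous_pi fun f => f.2.1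
  refine ⟨Set.range F, inferInstance, fun p => ⟨F p, p, rfl⟩, inferInstance, ?_⟩
  refine ⟨?_, ?_, ?_, ?_, ?_⟩
  · exact hF.subtype_mk _
  · rintro ⟨_, p, rfl⟩
    exact ⟨p, rfl⟩
  · intro q i j
    exact Subtype.ext (funext fun f => f.2.2.1 q i j)
  · intro q i j
    exact Subtype.ext (funext fun f => f.2.2.2 q i j)
  · intro f h1 h2 h3
    exact ⟨fun x => x.1 ⟨f, h1, h2, h3⟩, (continuous_apply _).comp continuous_subtype_val,
      fun p => rfl⟩

end Pool.Agent.N459.TC
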